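import Mathlib

open Filter Topology

namespace Pool.Agent.Results.MP_1c575b_co.ForciblyBiconnected

open Classical in
/-- `G` is a realization of the multiset `s`: the degrees of its vertices (all of them, with
multiplicity) are exactly the members of `s`. -/
def Realizes {V : Type} [Fintype V] (G : SimpleGraph V) (s : Multiset ℕ) : Prop :=
  (Finset.univ : Finset V).val.map (fun v => G.degree v) = s

/-- `s` is graphical: it has a realization by a finite simple graph. -/
def Graphical (s : Multiset ℕ) : Prop :=
  ∃ (V : Type) (_ : Fintype V) (G : SimpleGraph V), Realizes G s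

/-- `G` is `k`-connected: it has more than `k` vertices and stays connected after the deletion of
any set of fewer than `k` vertices. -/
def KConnected (k : ℕ) {V : Type} [Fintype V] (G : SimpleGraph V) : Prop :=
  k < Fintype.card V ∧ ∀ S : Finset V, S.card < k → (G.induce ((S : Set V)ᶜ)).Connected

/-- `s` is graphical and forcibly `k`-connected: each of its realizations is `k`-connected. -/
def ForciblyKConnected (k : ℕ) (s : Multiset ℕ) : Prop :=
  Graphical s ∧ ∀ (V : Type) [Fintype V] (G : SimpleGraph V), Realizes G s → KConnected k G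

/-- The number of graphical partitions of `N`. -/
noncomputable def g (N : ℕ) : ℕ := Nat.card {p : Nat.Partition N // Graphical p.parts}

/-- The number of forcibly `k`-connected graphical partitions of `N`. -/
noncomputable def gf (k N : ℕ) : ℕ :=
  Nat.card {p : Nat.Partition N // ForciblyKConnected k p.parts}

/-! ### Degrees -/

/-- degree as the size of the neighbour set -/
noncomputable def deg {V : Type} (G : SimpleGraph V) (x : V) : ℕ := (G.neighborSet x).ncard

lemma realizes_iff {V : Type} [Fintype V] (G : SimpleGraph V) (s : Multiset ℕ) :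
    Realizes G s ↔ (Finset.univ : Finset V).val.map (deg G) = s := by
  classical
  unfold Realizes
  constructor
  · intro h
    rw [← h]
    congr 1
    funext v
    unfold deg
    rw [Set.ncard_eq_toFinset_card']
    unfold SimpleGraph.degree SimpleGraph.neighborFinset
    congr!
  · intro h
    rw [← h]
    congr 1
    funext v
    unfold deg
    rw [Set.ncard_eq_toFinset_card']
    unfold SimpleGraph.degree SimpleGraph.neighborFinset
    congr!

/-- add an edge -/
def addE {V : Type} (G : SimpleGraph V) (a b : V) (h : a ≠ b) : SimpleGraph V where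
  Adj x y := G.Adj x y ∨ (x = a ∧ y = b) ∨ (x = b ∧ y = a)
  symm := ⟨by
    intro x y hxy
    rcases hxy with hxy | hxy | hxy
    · exact Or.inl hxy.symm
    · exact Or.inr (Or.inr ⟨hxy.2, hxy.1⟩)
    · exact Or.inr (Or.inl ⟨hxy.2, hxy.1⟩)⟩
  loopless := ⟨by
    intro x hx
    rcases hx with hx | hx | hx
    · exact G.loopless.irrefl x hx
    · exact h (hx.1.symm.trans hx.2)
    · exact h (hx.2.symm.trans hx.1)⟩

/-- delete an edge -/
def delE {V : Type} (G : SimpleGraph V) (a b : V) : SimpleGraph V where
  Adj x y := G.Adj x y ∧ ¬ (x = a ∧ y = b) ∧ ¬ (x = b ∧ y = a)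
  symm := ⟨by
    intro x y hxy
    exact ⟨hxy.1.symm, fun h => hxy.2.2 ⟨h.2, h.1⟩, fun h => hxy.2.1 ⟨h.2, h.1⟩⟩⟩
  loopless := ⟨by
    intro x hx
    exact G.loopless.irrefl x hx.1⟩

lemma deg_addE {V : Type} [Finite V] (G : SimpleGraph V) (a b : V) (h : a ≠ b)
    (hab : ¬ G.Adj a b) [DecidableEq V] (x : V) :
    deg (addE G a b h) x = deg G x + if x = a ∨ x = b then 1 else 0 := by
  unfold deg
  by_cases hxa : x = a
  · subst hxa
    have : (addE G x b h).neighborSet x = insert b (G.neighborSet x) := by
      ext z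
      simp only [SimpleGraph.mem_neighborSet, addE, Set.mem_insert_iff]
      grind
    rw [this, Set.ncard_insert_of_notMem (by simpa using hab) (Set.toFinite _)]
    simp
  · by_cases hxb : x = b
    · subst hxb
      have : (addE G a x h).neighborSet x = insert a (G.neighborSet x) := by
        ext z
        simp only [SimpleGraph.mem_neighborSet, addE, Set.mem_insert_iff]
        grind
      rw [this, Set.ncard_insert_of_notMem (by simpa using fun h => hab h.symm) (Set.toFinite _)]
      simp
    · have : (addE G a b h).neighborSet x = G.neighborSet x := by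
        ext z
        simp only [SimpleGraph.mem_neighborSet, addE]
        grind
      rw [this]
      simp [hxa, hxb]

lemma deg_delE {V : Type} [Finite V] (G : SimpleGraph V) (a b : V)
    (hab : G.Adj a b) [DecidableEq V] (x : V) :
    deg (delE G a b) x + (if x = a ∨ x = b then 1 else 0) = deg G x := by
  have hne : a ≠ b := G.ne_of_adj hab
  have h2 : ¬ (delE G a b).Adj a b := by
    simp [delE]
  have h3 := deg_addE (delE G a b) a b hne h2 x
  rw [← h3]
  congr 1
  ext y z
  simp only [addE, delE]
  have := G.adj_comm a b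
  grind

/-- move one end of an edge: the edge `v u` is replaced by `z u` -/
lemma transfer {V : Type} [Finite V] [DecidableEq V] (G : SimpleGraph V) (v z u : V)
    (h1 : G.Adj v u) (h2 : ¬ G.Adj z u) (h3 : z ≠ u) :
    ∃ G' : SimpleGraph V,
      (∀ x, deg G' x + (if x = v then 1 else 0) = deg G x + (if x = z then 1 else 0)) ∧
      (∀ x y, G'.Adj x y ↔ (G.Adj x y ∧ ¬ (x = v ∧ y = u) ∧ ¬ (x = u ∧ y = v)) ∨
        (x = z ∧ y = u) ∨ (x = u ∧ y = z)) := by
  have hvu : v ≠ u := G.ne_of_adj h1
  refine ⟨addE (delE G v u) z u h3, ?_, ?_⟩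
  · intro x
    have ha := deg_addE (delE G v u) z u h3 (by
      simp only [delE]
      tauto) x
    have hb := deg_delE G v u h1 x
    have hvz : v ≠ z := by
      rintro rfl
      exact h2 h1
    by_cases hx1 : x = v
    · subst hx1
      simp [hvz, hvu] at ha hb ⊢
      omega
    · by_cases hx2 : x = u
      · subst hx2
        simp [hvz, hvu, h3, Ne.symm h3, hx1] at ha hb ⊢
        omega
      · by_cases hx3 : x = z
        · subst hx3
          simp [hvz, hvu, h3, hx1] at ha hb ⊢
          omega
        · simp [hx1, hx2, hx3] at ha hb ⊢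
          omega
  · intro x y
    simp only [addE, delE]

/-! ### Multisets of degrees -/

lemma rep1 {V : Type} [Fintype V] [DecidableEq V] (d : V → ℕ) (a : ℕ) (t : Multiset ℕ)
    (h : (Finset.univ : Finset V).val.map d = a ::ₘ t) :
    ∃ w, d w = a ∧ (∀ x, x ≠ w → d x ∈ t) ∧
      ∀ d' : V → ℕ, (∀ x, x ≠ w → d' x = d x) →
        (Finset.univ : Finset V).val.map d' = d' w ::ₘ t := by
  have ha : a ∈ (Finset.univ : Finset V).val.map d := by
    rw [h]; exact Multiset.mem_cons_self a t
  obtain ⟨w, hw, rfl⟩ := Multiset.mem_map.1 ha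
  have hu : (Finset.univ : Finset V).val = w ::ₘ (Finset.univ : Finset V).val.erase w :=
    (Multiset.cons_erase hw).symm
  have hnd : ((Finset.univ : Finset V).val).Nodup := Finset.univ.nodup
  have ht : ((Finset.univ : Finset V).val.erase w).map d = t := by
    rw [hu, Multiset.map_cons] at h
    exact (Multiset.cons_inj_right _).1 h
  refine ⟨w, rfl, ?_, ?_⟩
  · intro x hx
    rw [← ht]
    refine Multiset.mem_map_of_mem d ?_
    rw [Multiset.mem_erase_of_ne hx]
    exact Finset.mem_univ x
  · intro d' hd'
    rw [hu, Multiset.map_cons, ← ht]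
    congr 1
    refine Multiset.map_congr rfl ?_
    intro x hx
    refine hd' x ?_
    rintro rfl
    exact (Multiset.Nodup.notMem_erase hnd) hx

lemma rep2 {V : Type} [Fintype V] [DecidableEq V] (d : V → ℕ) (a b : ℕ) (t : Multiset ℕ)
    (h : (Finset.univ : Finset V).val.map d = a ::ₘ b ::ₘ t) :
    ∃ w v, w ≠ v ∧ d w = a ∧ d v = b ∧
      ∀ d' : V → ℕ, (∀ x, x ≠ w → x ≠ v → d' x = d x) →
        (Finset.univ : Finset V).val.map d' = d' w ::ₘ d' v ::ₘ t := by
  have ha : a ∈ (Finset.univ : Finset V).val.map d := by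
    rw [h]; exact Multiset.mem_cons_self a _
  obtain ⟨w, hw, rfl⟩ := Multiset.mem_map.1 ha
  have hu : (Finset.univ : Finset V).val = w ::ₘ (Finset.univ : Finset V).val.erase w :=
    (Multiset.cons_erase hw).symm
  have hnd : ((Finset.univ : Finset V).val).Nodup := Finset.univ.nodup
  have ht : ((Finset.univ : Finset V).val.erase w).map d = b ::ₘ t := by
    rw [hu, Multiset.map_cons] at h
    exact (Multiset.cons_inj_right _).1 h
  have hb : b ∈ ((Finset.univ : Finset V).val.erase w).map d := by
    rw [ht]; exact Multiset.mem_cons_self b _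
  obtain ⟨v, hv, rfl⟩ := Multiset.mem_map.1 hb
  have hu2 : (Finset.univ : Finset V).val.erase w =
      v ::ₘ ((Finset.univ : Finset V).val.erase w).erase v := (Multiset.cons_erase hv).symm
  have hnd2 : ((Finset.univ : Finset V).val.erase w).Nodup := hnd.erase w
  have ht2 : (((Finset.univ : Finset V).val.erase w).erase v).map d = t := by
    rw [hu2, Multiset.map_cons] at ht
    exact (Multiset.cons_inj_right _).1 ht
  have hwv : w ≠ v := by
    rintro rfl
    exact (Multiset.Nodup.notMem_erase hnd) hv
  refine ⟨w, v, hwv, rfl, rfl, ?_⟩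
  intro d' hd'
  rw [hu, Multiset.map_cons, hu2, Multiset.map_cons, ← ht2]
  congr 2
  refine Multiset.map_congr rfl ?_
  intro x hx
  refine hd' x ?_ ?_
  · rintro rfl
    exact (Multiset.Nodup.notMem_erase hnd) (Multiset.mem_of_mem_erase hx)
  · rintro rfl
    exact (Multiset.Nodup.notMem_erase hnd2) hx

lemma graphical_iff (s : Multiset ℕ) : Graphical s ↔
    ∃ (V : Type) (_ : Fintype V) (G : SimpleGraph V),
      (Finset.univ : Finset V).val.map (deg G) = s := by
  unfold Graphical
  constructor
  · rintro ⟨V, i, G, h⟩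
    exact ⟨V, i, G, (realizes_iff G s).1 h⟩
  · rintro ⟨V, i, G, h⟩
    exact ⟨V, i, G, (realizes_iff G s).2 h⟩

/-- an isolated vertex can be removed -/
lemma graphical_zero (t : Multiset ℕ) (h : Graphical (0 ::ₘ t)) : Graphical t := by
  classical
  rw [graphical_iff] at h ⊢
  obtain ⟨V, i, G, h⟩ := h
  obtain ⟨w, hw, -, hl⟩ := rep1 _ _ _ h
  refine ⟨{x : V // x ≠ w}, inferInstance, G.comap Subtype.val, ?_⟩
  have hN : G.neighborSet w = ∅ := by
    unfold deg at hw
    exact (Set.ncard_eq_zero (Set.toFinite _)).1 hw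
  have hd : ∀ x : {x : V // x ≠ w}, deg (G.comap Subtype.val) x = deg G x.1 := by
    intro x
    unfold deg
    rw [← Set.ncard_image_of_injective _ Subtype.val_injective]
    congr 1
    ext z
    simp only [Set.mem_image, SimpleGraph.mem_neighborSet, SimpleGraph.comap_adj]
    constructor
    · rintro ⟨y, hy, rfl⟩
      exact hy
    · intro hz
      refine ⟨⟨z, ?_⟩, hz, rfl⟩
      rintro rfl
      have : x.1 ∈ G.neighborSet z := hz.symm
      rw [hN] at this
      exact this
  have hu : (Finset.univ : Finset V).val =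
      w ::ₘ (Finset.univ : Finset {x : V // x ≠ w}).val.map Subtype.val := by
    refine (Multiset.Nodup.ext Finset.univ.nodup ?_).2 ?_
    · rw [Multiset.nodup_cons]
      refine ⟨?_, ?_⟩
      · intro hm
        obtain ⟨y, -, hy⟩ := Multiset.mem_map.1 hm
        exact y.2 hy
      · exact Multiset.Nodup.map Subtype.val_injective Finset.univ.nodup
    · intro a
      simp only [Finset.mem_val, Finset.mem_univ, Multiset.mem_cons, Multiset.mem_map, true_and,
        true_iff]
      by_cases ha : a = w
      · exact Or.inl ha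
      · exact Or.inr ⟨⟨a, ha⟩, rfl⟩
  rw [hu, Multiset.map_cons, hw] at h
  have h2 := (Multiset.cons_inj_right _).1 h
  rw [Multiset.map_map] at h2
  rw [← h2]
  refine Multiset.map_congr rfl ?_
  intro x _
  exact hd x

/-- the graph with one more, isolated, vertex -/
def optG {V : Type} (G : SimpleGraph V) : SimpleGraph (Option V) where
  Adj x y := ∃ a b, x = some a ∧ y = some b ∧ G.Adj a b
  symm := ⟨by
    rintro x y ⟨a, b, ha, hb, hab⟩
    exact ⟨b, a, hb, ha, hab.symm⟩⟩
  loopless := ⟨by
    rintro x ⟨a, b, ha, hb, hab⟩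
    rw [ha] at hb
    injection hb with hb
    subst hb
    exact G.loopless.irrefl _ hab⟩

lemma deg_optG_some {V : Type} (G : SimpleGraph V) (x : V) :
    deg (optG G) (some x) = deg G x := by
  unfold deg
  rw [← Set.ncard_image_of_injective (G.neighborSet x) (Option.some_injective V)]
  congr 1
  ext z
  simp only [SimpleGraph.mem_neighborSet, optG, Set.mem_image]
  constructor
  · rintro ⟨a, b, ha, hb, hab⟩
    injection ha with ha
    subst ha
    exact ⟨b, hab, hb.symm⟩
  · rintro ⟨b, hab, hb⟩
    exact ⟨x, b, rfl, hb.symm, hab⟩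

lemma deg_optG_none {V : Type} (G : SimpleGraph V) : deg (optG G) none = 0 := by
  unfold deg
  have : (optG G).neighborSet none = ∅ := by
    ext z
    simp [optG]
  rw [this, Set.ncard_empty]

lemma map_option {V : Type} [Fintype V] (d : Option V → ℕ) :
    (Finset.univ : Finset (Option V)).val.map d =
      d none ::ₘ (Finset.univ : Finset V).val.map (fun x => d (some x)) := by
  have : (Finset.univ : Finset (Option V)).val = none ::ₘ (Finset.univ : Finset V).val.map some := by
    refine (Multiset.Nodup.ext Finset.univ.nodup ?_).2 ?_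
    · rw [Multiset.nodup_cons]
      refine ⟨?_, ?_⟩
      · intro hm
        obtain ⟨y, -, hy⟩ := Multiset.mem_map.1 hm
        exact absurd hy (by simp)
      · exact Multiset.Nodup.map (Option.some_injective V) Finset.univ.nodup
    · intro a
      simp only [Finset.mem_val, Finset.mem_univ, Multiset.mem_cons, Multiset.mem_map, true_and,
        true_iff]
      cases a with
      | none => exact Or.inl rfl
      | some a => exact Or.inr ⟨a, rfl⟩
  rw [this, Multiset.map_cons, Multiset.map_map]
  rfl

/-- a part can be split -/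
lemma split (b c : ℕ) (t : Multiset ℕ) (h : Graphical ((b + c) ::ₘ t)) :
    Graphical (b ::ₘ c ::ₘ t) := by
  classical
  rw [graphical_iff] at h ⊢
  obtain ⟨V, i, G, h⟩ := h
  obtain ⟨w, hw, -, hl⟩ := rep1 _ _ _ h
  have key : ∀ k, k ≤ c → ∃ G' : SimpleGraph (Option V),
      deg G' (some w) = b + c - k ∧ deg G' none = k ∧
      (∀ x, x ≠ w → deg G' (some x) = deg G x) ∧ ¬ G'.Adj (some w) none ∧
      ∀ x, G'.Adj (some w) x → ¬ G'.Adj none x := by
    intro k
    induction k with
    | zero =>
      intro _
      refine ⟨optG G, ?_, ?_, ?_, ?_, ?_⟩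
      · rw [deg_optG_some, hw]; rfl
      · exact deg_optG_none G
      · intro x _
        exact deg_optG_some G x
      · simp [optG]
      · intro x _
        simp [optG]
    | succ k ih =>
      intro hk
      obtain ⟨G', h1, h2, h3, h4, h5⟩ := ih (by omega)
      have hne : (G'.neighborSet (some w)).Nonempty := by
        rw [← Set.ncard_pos (Set.toFinite _)]
        unfold deg at h1
        omega
      obtain ⟨u, hu⟩ := hne
      have hu' : G'.Adj (some w) u := hu
      have hun : u ≠ none := by
        rintro rfl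
        exact h4 hu'
      obtain ⟨G2, hG2, hA⟩ := transfer G' (some w) none u hu' (h5 u hu') hun.symm
      have e1 := hG2 (some w)
      have e2 := hG2 none
      simp at e1 e2
      refine ⟨G2, by omega, by omega, ?_, ?_, ?_⟩
      · intro x hx
        have e3 := hG2 (some x)
        simp [hx] at e3
        rw [e3]
        exact h3 x hx
      · rw [hA]
        intro hc
        rcases hc with hc | hc | hc
        · exact h4 hc.1
        · exact absurd hc.1 (by simp)
        · exact G'.ne_of_adj hu' hc.1
      · intro x hx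
        rw [hA] at hx ⊢
        have hwu : some w ≠ u := G'.ne_of_adj hu'
        rcases hx with hx | hx | hx
        · intro hc
          rcases hc with hc | hc | hc
          · exact h5 x hx.1 hc.1
          · exact hx.2.1 ⟨rfl, hc.2⟩
          · exact hun hc.1.symm
        · exact absurd hx.1 (by simp)
        · exact absurd hx.1 hwu
  obtain ⟨G', h1, h2, h3, -, -⟩ := key c le_rfl
  refine ⟨Option V, inferInstance, G', ?_⟩
  rw [map_option, hl (fun x => deg G' (some x)) h3, h2, h1, Nat.add_sub_cancel,
    Multiset.cons_swap]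

/-- a dominating degree can be reduced by two -/
lemma reduce2 (L : ℕ) (t : Multiset ℕ) (ht : ∀ x ∈ t, x < L + 2)
    (h : Graphical ((L + 2) ::ₘ t)) : Graphical (L ::ₘ t) := by
  classical
  rw [graphical_iff] at h ⊢
  obtain ⟨V, i, G, h⟩ := h
  obtain ⟨w, hw, hm, hl⟩ := rep1 _ _ _ h
  obtain ⟨u1, u2, hu1, hu2, hne, hna⟩ : ∃ u1 u2, G.Adj w u1 ∧ G.Adj w u2 ∧ u1 ≠ u2 ∧
      ¬ G.Adj u2 u1 := by
    by_contra hcon
    push Not at hcon
    have hne : (G.neighborSet w).Nonempty := by
      rw [← Set.ncard_pos (Set.toFinite _)]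
      unfold deg at hw
      omega
    obtain ⟨u, hu⟩ := hne
    have hu' : G.Adj w u := hu
    have hwu : w ≠ u := G.ne_of_adj hu'
    have hsub : insert w (G.neighborSet w \ {u}) ⊆ G.neighborSet u := by
      intro x hx
      rcases hx with rfl | hx
      · exact hu'.symm
      · have hx1 : G.Adj w x := hx.1
        have hx2 : x ≠ u := fun h => hx.2 h
        exact hcon x u hx1 hu' hx2
    have hc := Set.ncard_le_ncard hsub (Set.toFinite _)
    rw [Set.ncard_insert_of_notMem (by simp) (Set.toFinite _),
      Set.ncard_sdiff_singleton_add_one hu (Set.toFinite _)] at hc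
    have := ht _ (hm u hwu.symm)
    unfold deg at hw this
    omega
  obtain ⟨G1, hG1, hA1⟩ := transfer G w u2 u1 hu1 hna hne.symm
  have hwu2 : w ≠ u2 := G.ne_of_adj hu2
  have hadj : G1.Adj w u2 := by
    rw [hA1]
    refine Or.inl ⟨hu2, ?_, ?_⟩
    · rintro ⟨-, h⟩
      exact hne h.symm
    · rintro ⟨h, -⟩
      exact G.ne_of_adj hu1 h
  refine ⟨V, i, delE G1 w u2, ?_⟩
  have hd := fun x => deg_delE G1 w u2 hadj x
  have e1 := hd w
  have e2 := hG1 w
  simp [hwu2] at e1 e2
  rw [hl (deg (delE G1 w u2)) ?_]
  · congr 1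
    omega
  · intro x hx
    have e3 := hd x
    have e4 := hG1 x
    by_cases hx2 : x = u2
    · subst hx2
      simp [hx] at e3 e4
      omega
    · simp [hx, hx2] at e3 e4
      omega

/-- if `W, 1, t` has a disconnected realization, then `W + 1, t` is graphical -/
lemma pendant_up {V : Type} [Fintype V] (G : SimpleGraph V) (W : ℕ) (t : Multiset ℕ)
    (h : (Finset.univ : Finset V).val.map (deg G) = W ::ₘ 1 ::ₘ t)
    (h0 : ∀ x : V, deg G x ≠ 0) (hc : ¬ G.Preconnected) : Graphical ((W + 1) ::ₘ t) := by
  classical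
  obtain ⟨w, v, hwv, hw, hv, hl⟩ := rep2 _ _ _ _ h
  obtain ⟨u, hu⟩ := Set.ncard_eq_one.1 (show (G.neighborSet v).ncard = 1 from hv)
  have hvu : G.Adj v u := by
    have : u ∈ G.neighborSet v := by rw [hu]; rfl
    exact this
  have hvu2 : v ≠ u := G.ne_of_adj hvu
  refine graphical_zero _ ?_
  rw [Multiset.cons_swap, graphical_iff]
  by_cases hcase : w ≠ u ∧ ¬ G.Adj w u
  · obtain ⟨G1, hG1, -⟩ := transfer G v w u hvu hcase.2 hcase.1
    refine ⟨V, inferInstance, G1, ?_⟩
    rw [hl (deg G1) ?_]
    · have e1 := hG1 w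
      have e2 := hG1 v
      simp [hwv, hwv.symm] at e1 e2
      congr 1
      · omega
      · congr 1
        omega
    · intro x hx1 hx2
      have e := hG1 x
      simp [hx1, hx2] at e
      exact e
  · have hwu : G.Reachable w u := by
      by_cases hwu : w = u
      · rw [hwu]
      · by_cases had : G.Adj w u
        · exact had.reachable
        · exact absurd ⟨hwu, had⟩ hcase
    have hwv' : G.Reachable w v := hwu.trans hvu.symm.reachable
    obtain ⟨y, hy⟩ : ∃ y, ¬ G.Reachable w y := by
      by_contra hcon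
      push Not at hcon
      exact hc (fun a b => (hcon a).symm.trans (hcon b))
    obtain ⟨x, hx⟩ : (G.neighborSet y).Nonempty := by
      rw [← Set.ncard_pos (Set.toFinite _)]
      exact Nat.pos_of_ne_zero (h0 y)
    have hyx : G.Adj y x := hx
    have hxr : ¬ G.Reachable w x := fun h => hy (h.trans hyx.symm.reachable)
    have nxw : x ≠ w := by rintro rfl; exact hxr (SimpleGraph.Reachable.refl _)
    have nxv : x ≠ v := by rintro rfl; exact hxr hwv'
    have nxu : x ≠ u := by rintro rfl; exact hxr hwu
    have nyw : y ≠ w := by rintro rfl; exact hy (SimpleGraph.Reachable.refl _)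
    have nyv : y ≠ v := by rintro rfl; exact hy hwv'
    have nyu : y ≠ u := by rintro rfl; exact hy hwu
    have nyx : y ≠ x := G.ne_of_adj hyx
    have axv : ¬ G.Adj x v := fun h => hxr (hwv'.trans h.symm.reachable)
    have awx : ¬ G.Adj w x := fun h => hxr h.reachable
    have auy : ¬ G.Adj u y := fun h => hy (hwu.trans h.reachable)
    obtain ⟨G1, hG1, hA1⟩ := transfer G u x v hvu.symm axv nxv
    have hxy1 : G1.Adj x y := by
      rw [hA1]
      exact Or.inl ⟨hyx.symm, fun h => nxu h.1, fun h => nyu h.2⟩
    have huy1 : ¬ G1.Adj u y := by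
      rw [hA1]
      rintro (h | h | h)
      · exact auy h.1
      · exact nxu h.1.symm
      · exact hvu2 h.1.symm
    obtain ⟨G2, hG2, hA2⟩ := transfer G1 x u y hxy1 huy1 nyu.symm
    have hvx2 : G2.Adj v x := by
      rw [hA2]
      refine Or.inl ⟨?_, fun h => nxv h.1.symm, fun h => nyv h.1.symm⟩
      rw [hA1]
      exact Or.inr (Or.inr ⟨rfl, rfl⟩)
    have hwx2 : ¬ G2.Adj w x := by
      rw [hA2, hA1]
      rintro (h | h | h)
      · rcases h.1 with h | h | h
        · exact awx h.1
        · exact nxw h.1.symm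
        · exact hwv h.1
      · exact nyx h.2.symm
      · exact nyw h.1.symm
    obtain ⟨G3, hG3, -⟩ := transfer G2 v w x hvx2 hwx2 nxw.symm
    refine ⟨V, inferInstance, G3, ?_⟩
    have hd : ∀ z, deg G2 z = deg G z := by
      intro z
      have e1 := hG1 z
      have e2 := hG2 z
      omega
    rw [hl (deg G3) ?_]
    · have e1 := hG3 w
      have e2 := hG3 v
      rw [hd] at e1 e2
      simp [hwv, hwv.symm] at e1 e2
      congr 1
      · omega
      · congr 1
        omega
    · intro z hz1 hz2
      have e := hG3 z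
      rw [hd] at e
      simp [hz1, hz2] at e
      exact e

/-- disjoint union with a complete graph -/
def sumK {V : Type} (G : SimpleGraph V) (b : ℕ) : SimpleGraph (V ⊕ Fin (b + 1)) where
  Adj x y := (∃ a c, x = Sum.inl a ∧ y = Sum.inl c ∧ G.Adj a c) ∨
    (∃ i j, x = Sum.inr i ∧ y = Sum.inr j ∧ i ≠ j)
  symm := ⟨by
    rintro x y (⟨a, c, h1, h2, h3⟩ | ⟨i, j, h1, h2, h3⟩)
    · exact Or.inl ⟨c, a, h2, h1, h3.symm⟩
    · exact Or.inr ⟨j, i, h2, h1, h3.symm⟩⟩
  loopless := ⟨by
    rintro x (⟨a, c, h1, h2, h3⟩ | ⟨i, j, h1, h2, h3⟩)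
    · rw [h1] at h2
      injection h2 with h2
      subst h2
      exact G.loopless.irrefl _ h3
    · rw [h1] at h2
      injection h2 with h2
      exact h3 h2⟩

lemma sumK_disconnected (V : Type) [Fintype V] (G : SimpleGraph V) (b : ℕ) (t : Multiset ℕ)
    (h : (Finset.univ : Finset V).val.map (deg G) = t) (ht : t ≠ 0) :
    (Finset.univ : Finset (V ⊕ Fin (b + 1))).val.map (deg (sumK G b)) =
      t + Multiset.replicate (b + 1) b ∧ ¬ (sumK G b).Preconnected := by
  classical
  constructor
  · have h1 : ∀ x : V, deg (sumK G b) (Sum.inl x) = deg G x := by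
      intro x
      unfold deg
      rw [← Set.ncard_image_of_injective (G.neighborSet x) (Sum.inl_injective (β := Fin (b + 1)))]
      congr 1
      ext z
      simp only [SimpleGraph.mem_neighborSet, sumK, Set.mem_image]
      constructor
      · rintro (⟨a, c, h1, h2, h3⟩ | ⟨i, j, h1, h2, h3⟩)
        · injection h1 with h1
          subst h1
          exact ⟨c, h3, h2.symm⟩
        · exact absurd h1 (by simp)
      · rintro ⟨c, h3, h2⟩
        exact Or.inl ⟨x, c, rfl, h2.symm, h3⟩
    have h2 : ∀ i : Fin (b + 1), deg (sumK G b) (Sum.inr i) = b := by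
      intro i
      unfold deg
      have : (sumK G b).neighborSet (Sum.inr i) = Sum.inr '' ({i}ᶜ : Set (Fin (b + 1))) := by
        ext z
        simp only [SimpleGraph.mem_neighborSet, sumK, Set.mem_image]
        constructor
        · rintro (⟨a, c, h1, h2, h3⟩ | ⟨i', j, h1, h2, h3⟩)
          · exact absurd h1 (by simp)
          · injection h1 with h1
            subst h1
            exact ⟨j, fun hj => h3 hj.symm, h2.symm⟩
        · rintro ⟨j, h3, h2⟩
          exact Or.inr ⟨i, j, rfl, h2.symm, fun hj => h3 hj.symm⟩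
      rw [this, Set.ncard_image_of_injective _ Sum.inr_injective, Set.ncard_compl]
      simp
    have hu : (Finset.univ : Finset (V ⊕ Fin (b + 1))).val =
        (Finset.univ : Finset V).val.map Sum.inl +
          (Finset.univ : Finset (Fin (b + 1))).val.map Sum.inr := by
      refine (Multiset.Nodup.ext Finset.univ.nodup ?_).2 ?_
      · rw [Multiset.nodup_add]
        refine ⟨Multiset.Nodup.map Sum.inl_injective Finset.univ.nodup,
          Multiset.Nodup.map Sum.inr_injective Finset.univ.nodup, ?_⟩
        rw [Multiset.disjoint_left]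
        intro a ha hb
        obtain ⟨x, -, hx⟩ := Multiset.mem_map.1 ha
        obtain ⟨y, -, hy⟩ := Multiset.mem_map.1 hb
        rw [← hx] at hy
        exact absurd hy (by simp)
      · intro a
        simp only [Finset.mem_val, Finset.mem_univ, Multiset.mem_add, Multiset.mem_map, true_and,
          true_iff]
        cases a with
        | inl a => exact Or.inl ⟨a, rfl⟩
        | inr a => exact Or.inr ⟨a, rfl⟩
    rw [hu, Multiset.map_add, Multiset.map_map, Multiset.map_map]
    congr 1
    · rw [← h]
      refine Multiset.map_congr rfl ?_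
      intro x _
      exact h1 x
    · have : (Finset.univ : Finset (Fin (b + 1))).val.map (deg (sumK G b) ∘ Sum.inr) =
          (Finset.univ : Finset (Fin (b + 1))).val.map (fun _ => b) := by
        refine Multiset.map_congr rfl ?_
        intro i _
        exact h2 i
      rw [this, Multiset.map_const']
      simp
  · intro hp
    have hV : Nonempty V := by
      by_contra hcon
      rw [not_nonempty_iff] at hcon
      apply ht
      rw [← h]
      simp
    obtain ⟨x⟩ := hV
    have hr : ∀ z, (sumK G b).Reachable (Sum.inl x) z → ∃ a : V, z = Sum.inl a := by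
      intro z hz
      rw [SimpleGraph.reachable_iff_reflTransGen] at hz
      induction hz with
      | refl => exact ⟨x, rfl⟩
      | tail _ hab ih =>
        obtain ⟨a, ha⟩ := ih
        rcases hab with ⟨a', c, h1, h2, h3⟩ | ⟨i, j, h1, h2, h3⟩
        · exact ⟨c, h2⟩
        · rw [ha] at h1
          exact absurd h1 (by simp)
    obtain ⟨a, ha⟩ := hr _ (hp (Sum.inl x) (Sum.inr 0))
    exact absurd ha (by simp)

/-- a degree is at most the number of the other vertices -/
lemma graphical_le (W : ℕ) (r : Multiset ℕ) (h : Graphical (W ::ₘ r)) : W ≤ Multiset.card r := by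
  classical
  rw [graphical_iff] at h
  obtain ⟨V, i, G, h⟩ := h
  obtain ⟨w, hw, -, hl⟩ := rep1 _ _ _ h
  have hc : Fintype.card V = Multiset.card r + 1 := by
    have := congrArg Multiset.card h
    simpa using this
  have hsub : G.neighborSet w ⊆ ({w}ᶜ : Set V) := by
    intro x hx hxw
    rw [Set.mem_singleton_iff] at hxw
    subst hxw
    exact G.loopless.irrefl _ hx
  have := Set.ncard_le_ncard hsub (Set.toFinite _)
  rw [Set.ncard_compl, Set.ncard_singleton, Nat.card_eq_fintype_card, hc] at this
  unfold deg at hw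
  omega

/-- forcibly connected -/
def FC (s : Multiset ℕ) : Prop :=
  Graphical s ∧ ∀ (V : Type) [Fintype V] (G : SimpleGraph V),
    (Finset.univ : Finset V).val.map (deg G) = s → G.Preconnected

lemma fc_of_top (W : ℕ) (t : Multiset ℕ) (h0 : 0 ∉ W ::ₘ 1 ::ₘ t)
    (h1 : Graphical (W ::ₘ 1 ::ₘ t)) (h2 : ¬ Graphical ((W + 1) ::ₘ t)) :
    FC (W ::ₘ 1 ::ₘ t) := by
  refine ⟨h1, ?_⟩
  intro V _ G hG
  by_contra hc
  refine h2 (pendant_up G W t hG ?_ hc)
  intro x hx
  apply h0
  rw [← hG, ← hx]
  exact Multiset.mem_map_of_mem _ (Finset.mem_univ x)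

lemma not_fc_of_copies (b : ℕ) (t : Multiset ℕ) (ht : t ≠ 0) (h : Graphical t) :
    ¬ FC (t + Multiset.replicate (b + 1) b) := by
  intro hf
  rw [graphical_iff] at h
  obtain ⟨V, i, G, h⟩ := h
  obtain ⟨h1, h2⟩ := sumK_disconnected V G b t h ht
  exact h2 (hf.2 _ _ h1)

/-! ### Operations on graphical multisets -/

lemma reduce_many (W k : ℕ) (t : Multiset ℕ) (ht : ∀ x ∈ t, x ≤ W)
    (h : Graphical ((W + 2 * k) ::ₘ t)) : Graphical (W ::ₘ t) := by
  induction k with
  | zero => simpa using h
  | succ k ih =>
    apply ih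
    apply reduce2 (W + 2 * k) _ _ h
    intro x hx
    have := ht x hx
    omega

lemma split_hub (b : ℕ) (i : ℕ) : ∀ (W : ℕ) (t : Multiset ℕ),
    Graphical ((W + b * i) ::ₘ t) → Graphical (W ::ₘ (Multiset.replicate i b + t)) := by
  induction i with
  | zero =>
    intro W t h
    simpa using h
  | succ i ih =>
    intro W t h
    have h2 : Graphical ((W + b * i) ::ₘ b ::ₘ t) := by
      apply split
      convert h using 2
      ring
    have h3 := ih W (b ::ₘ t) h2
    convert h3 using 2
    rw [Multiset.replicate_succ, Multiset.cons_add, Multiset.add_cons]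

lemma to_ones (b : ℕ) (hb : 1 ≤ b) : ∀ t : Multiset ℕ,
    Graphical (b ::ₘ t) → Graphical (Multiset.replicate b 1 + t) := by
  induction b, hb using Nat.le_induction with
  | base =>
    intro t h
    simpa using h
  | succ b hb ih =>
    intro t h
    have h2 := ih (1 ::ₘ t) (split b 1 t h)
    convert h2 using 1
    rw [Multiset.replicate_succ, Multiset.cons_add, Multiset.add_cons]

lemma multiset_to_ones (s : Multiset ℕ) : ∀ t : Multiset ℕ, 0 ∉ s →
    Graphical (s + t) → Graphical (Multiset.replicate s.sum 1 + t) := by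
  induction s using Multiset.induction with
  | empty =>
    intro t _ h
    simpa using h
  | cons a s ih =>
    intro t h0 h
    rw [Multiset.mem_cons, not_or] at h0
    rw [Multiset.cons_add] at h
    have h2 := to_ones a (Nat.one_le_iff_ne_zero.2 (fun h => h0.1 h.symm)) _ h
    have h3 := ih (Multiset.replicate a 1 + t) h0.2 (by
      convert h2 using 1
      rw [← add_assoc, ← add_assoc, add_comm s])
    convert h3 using 1
    rw [Multiset.sum_cons, Multiset.replicate_add, ← add_assoc, add_comm (Multiset.replicate a 1)]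

lemma big_split (big : Multiset ℕ) : ∀ (i : ℕ) (t : Multiset ℕ), i ≤ Multiset.card big →
    (∀ x ∈ big, 3 ≤ x) → Graphical (big + t) →
    Graphical (big.map (fun x => x - 2) + (Multiset.replicate i 2 +
      (Multiset.replicate (2 * (Multiset.card big - i)) 1 + t))) := by
  induction big using Multiset.induction with
  | empty =>
    intro i t hi _ h
    have : i = 0 := by simpa using hi
    subst this
    simpa using h
  | cons c big ih =>
    intro i t hi h3 h
    have hc : 3 ≤ c := h3 c (Multiset.mem_cons_self c big)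
    have h3' : ∀ x ∈ big, 3 ≤ x := fun x hx => h3 x (Multiset.mem_cons_of_mem hx)
    rw [Multiset.card_cons] at hi
    have hs : Graphical ((c - 2) ::ₘ 2 ::ₘ (big + t)) := by
      apply split
      rw [Nat.sub_add_cancel (by omega)]
      rw [Multiset.cons_add] at h
      exact h
    cases i with
    | succ i =>
      have h4 := ih i ((c - 2) ::ₘ 2 ::ₘ t) (by omega) h3' (by
        convert hs using 1
        rw [Multiset.add_cons, Multiset.add_cons])
      convert h4 using 1
      rw [Multiset.map_cons, Multiset.card_cons, Nat.add_sub_add_right, Multiset.replicate_succ]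
      simp only [← Multiset.singleton_add]
      abel
    | zero =>
      have hs2 : Graphical (1 ::ₘ 1 ::ₘ (c - 2) ::ₘ (big + t)) := by
        apply split
        rw [Multiset.cons_swap]
        exact hs
      have h4 := ih 0 (1 ::ₘ 1 ::ₘ (c - 2) ::ₘ t) (by omega) h3' (by
        convert hs2 using 1
        rw [Multiset.add_cons, Multiset.add_cons, Multiset.add_cons])
      convert h4 using 1
      rw [Multiset.map_cons, Multiset.card_cons]
      have : 2 * (Multiset.card big + 1 - 0) = 2 * (Multiset.card big - 0) + 1 + 1 := by omega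
      rw [this, Multiset.replicate_succ, Multiset.replicate_succ]
      simp only [← Multiset.singleton_add]
      abel

lemma ng (b W j : ℕ) (r : Multiset ℕ) (hj : b + 1 ≤ j) (hr : ∀ x ∈ r, x ≤ W)
    (hbW : b ≤ W) (hf : FC (W ::ₘ (r + Multiset.replicate j b))) :
    ¬ Graphical ((W + b * j) ::ₘ r) := by
  intro h
  obtain ⟨i, rfl⟩ := Nat.exists_eq_add_of_le hj
  have h1 : Graphical ((W + b * (b + 1)) ::ₘ (Multiset.replicate i b + r)) := by
    apply split_hub
    convert h using 2
    ring
  obtain ⟨k, hk⟩ : ∃ k, b * (b + 1) = 2 * k := (Nat.even_mul_succ_self b).two_dvd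
  rw [hk] at h1
  have h2 := reduce_many W k _ (by
    intro x hx
    rcases Multiset.mem_add.1 hx with hx | hx
    · rw [Multiset.eq_of_mem_replicate hx]
      exact hbW
    · exact hr x hx) h1
  refine not_fc_of_copies b _ (Multiset.cons_ne_zero) h2 ?_
  convert hf using 1
  rw [Multiset.replicate_add (b + 1) i b]
  simp only [← Multiset.singleton_add]
  abel

/-! ### The sets of partitions, in the form (largest part, other parts) -/

/-- forcibly connected partitions -/
def F1 (N : ℕ) : Set (ℕ × Multiset ℕ) :=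
  {p | p.1 + p.2.sum = N ∧ 0 < p.1 ∧ 0 ∉ p.2 ∧ (∀ x ∈ p.2, x ≤ p.1) ∧ FC (p.1 ::ₘ p.2)}

/-- forcibly connected partitions without part one -/
def A (N : ℕ) : Set (ℕ × Multiset ℕ) :=
  {p | p ∈ F1 N ∧ 2 ≤ p.1 ∧ ∀ x ∈ p.2, 2 ≤ x}

/-- partitions without part one which become graphical only after moving some units from the
largest part to new parts one -/
def NN (N : ℕ) : Set (ℕ × Multiset ℕ) :=
  {p | p.1 + p.2.sum = N ∧ (∀ x ∈ p.2, 2 ≤ x) ∧ ¬ Graphical (p.1 ::ₘ p.2) ∧
    ∃ W e, p.1 = W + e ∧ 2 ≤ W ∧ (∀ x ∈ p.2, x ≤ W) ∧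
      Graphical (W ::ₘ (p.2 + Multiset.replicate e 1))}

lemma finite_all (N : ℕ) : {p : ℕ × Multiset ℕ | p.1 + p.2.sum = N ∧ 0 ∉ p.2}.Finite := by
  have h1 : (⋃ m ∈ Set.Iic N, Set.range (fun p : Nat.Partition m => p.parts)).Finite :=
    (Set.finite_Iic N).biUnion (fun m _ => Set.finite_range _)
  refine ((Set.finite_Iic N).prod h1).subset ?_
  rintro ⟨W, r⟩ ⟨h2, h3⟩
  simp only at h2 h3
  refine ⟨?_, ?_⟩
  · simp only [Set.mem_Iic]
    omega
  · simp only [Set.mem_iUnion, Set.mem_Iic, Set.mem_range]
    refine ⟨r.sum, by omega, ⟨r, ?_, rfl⟩, rfl⟩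
    intro i hi
    exact Nat.pos_of_ne_zero (fun h => h3 (h ▸ hi))

lemma finite_F1 (N : ℕ) : (F1 N).Finite :=
  (finite_all N).subset (fun _ hp => ⟨hp.1, hp.2.2.1⟩)

lemma finite_NN (N : ℕ) : (NN N).Finite :=
  (finite_all N).subset (fun _ hp => ⟨hp.1, fun h => by simpa using hp.2.1 0 h⟩)

lemma finite_A (N : ℕ) : (A N).Finite := (finite_F1 N).subset (fun _ hp => hp.1)

open Classical in
/-- the top graphical member of the chain -/
noncomputable def M (p : ℕ × Multiset ℕ) : ℕ × Multiset ℕ :=
  if h : ∃ e, e ≤ p.1 ∧ Graphical ((p.1 - e) ::ₘ (p.2 + Multiset.replicate e 1)) then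
    (p.1 - Nat.find h, p.2 + Multiset.replicate (Nat.find h) 1) else p

lemma M_spec (N : ℕ) (p : ℕ × Multiset ℕ) (hp : p ∈ NN N) :
    ∃ e, M p = (p.1 - e, p.2 + Multiset.replicate e 1) ∧ e ≤ p.1 ∧ 2 ≤ p.1 - e ∧
      M p ∈ F1 N := by
  classical
  obtain ⟨h1, h2, h3, W, e, h4, h5, h6, h7⟩ := hp
  have hex : ∃ e, e ≤ p.1 ∧ Graphical ((p.1 - e) ::ₘ (p.2 + Multiset.replicate e 1)) := by
    refine ⟨e, by omega, ?_⟩
    rw [h4, Nat.add_sub_cancel]
    exact h7
  have hM : M p = (p.1 - Nat.find hex, p.2 + Multiset.replicate (Nat.find hex) 1) := by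
    unfold M
    rw [dif_pos hex]
  have hspec := Nat.find_spec hex
  have hle : Nat.find hex ≤ e := Nat.find_min' hex (by
    refine ⟨by omega, ?_⟩
    rw [h4, Nat.add_sub_cancel]
    exact h7)
  have hpos : 0 < Nat.find hex := by
    rcases Nat.eq_zero_or_pos (Nat.find hex) with h | h
    · exfalso
      apply h3
      have := hspec.2
      rw [h] at this
      simpa using this
    · exact h
  have hmin := Nat.find_min hex (m := Nat.find hex - 1) (by omega)
  set f := Nat.find hex with hf
  obtain ⟨k, hk⟩ : ∃ k, f = k + 1 := ⟨f - 1, by omega⟩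
  refine ⟨f, hM, by omega, by omega, ?_⟩
  rw [hM]
  refine ⟨?_, ?_, ?_, ?_, ?_⟩
  · simp only [Multiset.sum_add, Multiset.sum_replicate, smul_eq_mul, mul_one]
    omega
  · simp only
    omega
  · simp only [Multiset.mem_add, not_or]
    refine ⟨fun h => by simpa using h2 0 h, fun h => ?_⟩
    exact absurd (Multiset.eq_of_mem_replicate h) (by norm_num)
  · simp only
    intro x hx
    rcases Multiset.mem_add.1 hx with hx | hx
    · have := h6 x hx
      omega
    · rw [Multiset.eq_of_mem_replicate hx]
      omega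
  · simp only
    have hrw : (p.1 - f) ::ₘ (p.2 + Multiset.replicate f 1) =
        (p.1 - f) ::ₘ 1 ::ₘ (p.2 + Multiset.replicate k 1) := by
      rw [hk, Multiset.replicate_succ, Multiset.add_cons]
    rw [hrw]
    apply fc_of_top
    · simp only [Multiset.mem_cons, Multiset.mem_add, not_or]
      refine ⟨by omega, by norm_num, fun h => by simpa using h2 0 h, fun h => ?_⟩
      exact absurd (Multiset.eq_of_mem_replicate h) (by norm_num)
    · rw [← hrw]
      exact hspec.2
    · intro hg
      apply hmin
      refine ⟨by omega, ?_⟩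
      have e1 : p.1 - (f - 1) = p.1 - f + 1 := by omega
      have e2 : f - 1 = k := by omega
      rw [e1, e2]
      exact hg

lemma count_one_zero (r : Multiset ℕ) (h : ∀ x ∈ r, 2 ≤ x) : r.count 1 = 0 := by
  rw [Multiset.count_eq_zero]
  intro h1
  have := h 1 h1
  omega

lemma NN_le_F1 (N : ℕ) : (NN N).ncard ≤ (F1 N).ncard := by
  refine Set.ncard_le_ncard_of_injOn M ?_ ?_ (finite_F1 N)
  · intro p hp
    obtain ⟨e, -, -, -, h⟩ := M_spec N p hp
    exact h
  · intro p hp q hq hpq
    obtain ⟨e, h1, h2, h3, -⟩ := M_spec N p hp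
    obtain ⟨f, k1, k2, k3, -⟩ := M_spec N q hq
    rw [h1, k1, Prod.mk.injEq] at hpq
    have hc := congrArg (Multiset.count 1) hpq.2
    rw [Multiset.count_add, Multiset.count_add, Multiset.count_replicate_self,
      Multiset.count_replicate_self, count_one_zero _ hp.2.1, count_one_zero _ hq.2.1] at hc
    have hef : e = f := by omega
    subst hef
    have h5 := Multiset.add_left_inj.1 hpq.2
    ext1
    · omega
    · exact h5

/-- partitions in `A` with many parts `b` -/
def AB (b T N : ℕ) : Set (ℕ × Multiset ℕ) := {p | p ∈ A N ∧ (b + 1) * T ≤ p.2.count b}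

lemma count_AB (b T N : ℕ) (hb : 2 ≤ b) : (AB b T N).ncard * T ≤ (NN N).ncard := by
  classical
  have h : (AB b T N ×ˢ ((Finset.range T : Finset ℕ) : Set ℕ)).ncard ≤ (NN N).ncard := by
    refine Set.ncard_le_ncard_of_injOn
      (fun q => (q.1.1 + b * ((b + 1) * (q.2 + 1)),
        q.1.2 - Multiset.replicate ((b + 1) * (q.2 + 1)) b)) ?_ ?_ (finite_NN N)
    · rintro ⟨⟨W, r⟩, t⟩ ⟨⟨⟨⟨h1, h2, h3, h4, h5⟩, h6, h7⟩, h8⟩, h9⟩
      simp only [Finset.coe_range, Set.mem_Iio] at h1 h2 h3 h4 h5 h6 h7 h8 h9 ⊢
      set j := (b + 1) * (t + 1) with hj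
      have hjle : j ≤ r.count b := by
        refine le_trans ?_ h8
        rw [hj]
        exact Nat.mul_le_mul_left _ h9
      have hrep : Multiset.replicate j b ≤ r := Multiset.le_count_iff_replicate_le.1 hjle
      obtain ⟨r', rfl⟩ := Multiset.le_iff_exists_add.1 hrep
      have hjpos : b + 1 ≤ j := by
        rw [hj]
        nlinarith
      have hbmem : b ∈ Multiset.replicate j b + r' := by
        rw [Multiset.mem_add]
        left
        rw [Multiset.mem_replicate]
        exact ⟨by omega, rfl⟩
      have hbW : b ≤ W := h4 b hbmem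
      rw [add_tsub_cancel_left]
      refine ⟨?_, ?_, ?_, ?_⟩
      · simp only [Multiset.sum_add, Multiset.sum_replicate, smul_eq_mul] at h1 ⊢
        rw [← h1, mul_comm b j, add_assoc]
      · intro x hx
        exact h7 x (Multiset.mem_add.2 (Or.inr hx))
      · refine ng b W j r' hjpos (fun x hx => h4 x (Multiset.mem_add.2 (Or.inr hx))) hbW ?_
        rw [add_comm r']
        exact h5
      · refine ⟨W, b * j, rfl, h6, fun x hx => h4 x (Multiset.mem_add.2 (Or.inr hx)), ?_⟩
        have h10 := h5.1
        have h11 : Graphical (Multiset.replicate j b + (W ::ₘ r')) := by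
          convert h10 using 1
          rw [Multiset.add_cons]
        have h12 := multiset_to_ones _ _ (by
          intro h
          have := Multiset.eq_of_mem_replicate h
          omega) h11
        rw [Multiset.sum_replicate, smul_eq_mul] at h12
        convert h12 using 1
        rw [Multiset.add_cons, add_comm r', mul_comm b j]
    · rintro ⟨⟨W, r⟩, t⟩ ⟨⟨⟨⟨h1, h2, h3, h4, h5⟩, h6, h7⟩, h8⟩, h9⟩
        ⟨⟨W', r'⟩, t'⟩ ⟨⟨⟨⟨h1', h2', h3', h4', h5'⟩, h6', h7'⟩, h8'⟩, h9'⟩ heq
      simp only [Finset.coe_range, Set.mem_Iio, Prod.mk.injEq] at *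
      obtain ⟨e1, e2⟩ := heq
      -- symmetric helper
      have key : ∀ (W W' : ℕ) (r r' : Multiset ℕ) (t t' : ℕ), t < t' →
          (b + 1) * T ≤ r.count b → (b + 1) * T ≤ r'.count b → t < T → t' < T →
          FC (W ::ₘ r) → FC (W' ::ₘ r') → (∀ x ∈ r', x ≤ W') →
          W + b * ((b + 1) * (t + 1)) = W' + b * ((b + 1) * (t' + 1)) →
          r - Multiset.replicate ((b + 1) * (t + 1)) b =
            r' - Multiset.replicate ((b + 1) * (t' + 1)) b → False := by
        intro W W' r r' t t' htt h8 h8' h9 h9' h5 h5' h4' e1 e2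
        have hrep : Multiset.replicate ((b + 1) * (t + 1)) b ≤ r :=
          Multiset.le_count_iff_replicate_le.1 (le_trans (Nat.mul_le_mul_left _ h9) h8)
        have hrep' : Multiset.replicate ((b + 1) * (t' + 1)) b ≤ r' :=
          Multiset.le_count_iff_replicate_le.1 (le_trans (Nat.mul_le_mul_left _ h9') h8')
        obtain ⟨s, rfl⟩ := Multiset.le_iff_exists_add.1 hrep
        obtain ⟨s', rfl⟩ := Multiset.le_iff_exists_add.1 hrep'
        rw [add_tsub_cancel_left, add_tsub_cancel_left] at e2
        subst e2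
        obtain ⟨d, rfl⟩ := Nat.exists_eq_add_of_lt htt
        have e3 : W = W' + b * ((b + 1) * (d + 1)) := by
          have : b * ((b + 1) * (t + d + 1 + 1)) =
              b * ((b + 1) * (d + 1)) + b * ((b + 1) * (t + 1)) := by ring
          omega
        have hbW : b ≤ W' := h4' b (by
          rw [Multiset.mem_add, Multiset.mem_replicate]
          left
          refine ⟨?_, rfl⟩
          positivity)
        refine ng b W' ((b + 1) * (d + 1)) (Multiset.replicate ((b + 1) * (t + 1)) b + s)
          (by nlinarith) ?_ hbW ?_ ?_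
        · intro x hx
          rcases Multiset.mem_add.1 hx with hx | hx
          · rw [Multiset.eq_of_mem_replicate hx]
            exact hbW
          · exact h4' x (Multiset.mem_add.2 (Or.inr hx))
        · convert h5' using 2
          have : (b + 1) * (t + d + 1 + 1) = (b + 1) * (t + 1) + (b + 1) * (d + 1) := by ring
          rw [this, Multiset.replicate_add]
          abel
        · rw [← e3]
          exact h5.1
      rcases lt_trichotomy t t' with htt | htt | htt
      · exact (key W W' r r' t t' htt h8 h8' h9 h9' h5 h5' h4' e1 e2).elim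
      · subst htt
        have hW : W = W' := by omega
        have hrep : Multiset.replicate ((b + 1) * (t + 1)) b ≤ r :=
          Multiset.le_count_iff_replicate_le.1 (le_trans (Nat.mul_le_mul_left _ h9) h8)
        have hrep' : Multiset.replicate ((b + 1) * (t + 1)) b ≤ r' :=
          Multiset.le_count_iff_replicate_le.1 (le_trans (Nat.mul_le_mul_left _ h9) h8')
        obtain ⟨s, rfl⟩ := Multiset.le_iff_exists_add.1 hrep
        obtain ⟨s', rfl⟩ := Multiset.le_iff_exists_add.1 hrep'
        rw [add_tsub_cancel_left, add_tsub_cancel_left] at e2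
        exact ⟨⟨hW, by rw [e2]⟩, rfl⟩
      · exact (key W' W r' r t' t htt h8' h8 h9' h9 h5' h5 h4 e1.symm e2.symm).elim
  rw [Set.ncard_prod, Set.ncard_coe_finset, Finset.card_range] at h
  exact h

/-- partitions in `A` with few parts two, three, four -/
def AF (R N : ℕ) : Set (ℕ × Multiset ℕ) :=
  {p | p ∈ A N ∧ p.2.count 2 < R ∧ p.2.count 3 < R ∧ p.2.count 4 < R}

lemma small_eq (r : Multiset ℕ) (h : ∀ x ∈ r, 2 ≤ x) :
    r.filter (fun x => ¬ 5 ≤ x) = Multiset.replicate (r.count 2) 2 +
      Multiset.replicate (r.count 3) 3 + Multiset.replicate (r.count 4) 4 := by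
  ext a
  rw [Multiset.count_filter, Multiset.count_add, Multiset.count_add, Multiset.count_replicate,
    Multiset.count_replicate, Multiset.count_replicate]
  by_cases h5 : 5 ≤ a
  · rw [if_neg (by omega), if_neg (by omega), if_neg (by omega), if_neg (by omega)]
  · rw [if_pos h5]
    by_cases ha : a ∈ r
    · have := h a ha
      have h3 : a = 2 ∨ a = 3 ∨ a = 4 := by omega
      rcases h3 with rfl | rfl | rfl <;> simp
    · rw [Multiset.count_eq_zero_of_notMem ha]
      by_cases h2 : a = 2
      · subst h2
        simp [Multiset.count_eq_zero_of_notMem ha]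
      · by_cases h3 : a = 3
        · subst h3
          simp [Multiset.count_eq_zero_of_notMem ha]
        · by_cases h4 : a = 4
          · subst h4
            simp [Multiset.count_eq_zero_of_notMem ha]
          · rw [if_neg (by omega), if_neg (by omega), if_neg (by omega)]

lemma map_sub_sum (big : Multiset ℕ) (h : ∀ x ∈ big, 5 ≤ x) :
    (big.map (fun x => x - 2)).sum + 2 * Multiset.card big = big.sum := by
  induction big using Multiset.induction with
  | empty => simp
  | cons a s ih =>
    have h1 := ih (fun x hx => h x (Multiset.mem_cons_of_mem hx))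
    have h2 := h a (Multiset.mem_cons_self a s)
    rw [Multiset.map_cons, Multiset.sum_cons, Multiset.sum_cons, Multiset.card_cons]
    omega

lemma count_AF (R K N : ℕ)
    (hN : 3 * K + 12 * R + 3 * K * (3 * K + 3 * R) + 3 * R < N) :
    (AF R N).ncard * K ≤ (NN N).ncard * (R * (R * R)) := by
  classical
  have h : (AF R N ×ˢ ((Finset.range K : Finset ℕ) : Set ℕ)).ncard ≤
      (NN N ×ˢ (((Finset.range R : Finset ℕ) : Set ℕ) ×ˢ (((Finset.range R : Finset ℕ) : Set ℕ) ×ˢ
        ((Finset.range R : Finset ℕ) : Set ℕ)))).ncard := by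
    refine Set.ncard_le_ncard_of_injOn
      (fun q => ((q.1.1 + 2 * (Multiset.card (q.1.2.filter (fun x => 5 ≤ x)) - q.2) +
          (q.1.2.filter (fun x => ¬ 5 ≤ x)).sum,
        (q.1.2.filter (fun x => 5 ≤ x)).map (fun x => x - 2) + Multiset.replicate q.2 2),
        (q.1.2.count 2, (q.1.2.count 3, q.1.2.count 4)))) ?_ ?_ ?_
    · rintro ⟨⟨W, r⟩, i⟩ ⟨⟨⟨⟨h1, h2, h3, h4, h5⟩, h6, h7⟩, h8, h9, h10⟩, h11⟩
      simp only [Finset.coe_range, Set.mem_Iio, Set.mem_prod] at h1 h2 h3 h4 h5 h6 h7 h8 h9 h10 h11 ⊢
      refine ⟨?_, h8, h9, h10⟩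
      have hsm := small_eq r h7
      set small := r.filter (fun x => ¬ 5 ≤ x) with hsmall
      set big := r.filter (fun x => 5 ≤ x) with hbig
      have hr : big + small = r := Multiset.filter_add_not (fun x => 5 ≤ x) r
      have hS : small.sum = 2 * r.count 2 + 3 * r.count 3 + 4 * r.count 4 := by
        rw [hsm]
        simp only [Multiset.sum_add, Multiset.sum_replicate, smul_eq_mul]
        ring
      have hcs : Multiset.card small = r.count 2 + r.count 3 + r.count 4 := by
        rw [hsm]
        simp
      have hb5 : ∀ x ∈ big, 5 ≤ x := fun x hx => (Multiset.mem_filter.1 hx).2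
      have hbr : ∀ x ∈ big, x ∈ r := fun x hx => (Multiset.mem_filter.1 hx).1
      have hsr : ∀ x ∈ small, x ∈ r := fun x hx => (Multiset.mem_filter.1 hx).1
      have hW : W ≤ Multiset.card big + Multiset.card small := by
        have := graphical_le W r h5.1
        rw [← hr, Multiset.card_add] at this
        exact this
      have hbs : big.sum ≤ Multiset.card big * W := by
        have := Multiset.sum_le_card_nsmul big W (fun x hx => h4 x (hbr x hx))
        simpa using this
      have hsum : W + (big.sum + small.sum) = N := by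
        rw [← hr, Multiset.sum_add] at h1
        exact h1
      have hq : 3 * K < Multiset.card big := by
        by_contra hcon
        push Not at hcon
        have h12 : W ≤ 3 * K + 3 * R := by omega
        have h13 : Multiset.card big * W ≤ 3 * K * (3 * K + 3 * R) := Nat.mul_le_mul hcon h12
        omega
      set q := Multiset.card big with hqdef
      have hms := map_sub_sum big hb5
      refine ⟨?_, ?_, ?_, ?_⟩
      · simp only [Multiset.sum_add, Multiset.sum_replicate, smul_eq_mul]
        omega
      · intro x hx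
        rcases Multiset.mem_add.1 hx with hx | hx
        · obtain ⟨y, hy, rfl⟩ := Multiset.mem_map.1 hx
          have := hb5 y hy
          omega
        · rw [Multiset.eq_of_mem_replicate hx]
      · intro hg
        have := graphical_le _ _ hg
        rw [Multiset.card_add, Multiset.card_map, Multiset.card_replicate] at this
        omega
      · refine ⟨W, 2 * (q - i) + small.sum, by ring, h6, ?_, ?_⟩
        · intro x hx
          rcases Multiset.mem_add.1 hx with hx | hx
          · obtain ⟨y, hy, rfl⟩ := Multiset.mem_map.1 hx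
            have := h4 y (hbr y hy)
            omega
          · rw [Multiset.eq_of_mem_replicate hx]
            exact h6
        · have g1 : Graphical (small + (W ::ₘ big)) := by
            convert h5.1 using 1
            rw [← hr]
            simp only [← Multiset.singleton_add]
            abel
          have g2 := multiset_to_ones small (W ::ₘ big) (fun h => h3 (hsr 0 h)) g1
          have g3 := big_split big i (Multiset.replicate small.sum 1 + {W}) (by omega)
            (fun x hx => by have := hb5 x hx; omega) (by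
              convert g2 using 1
              simp only [← Multiset.singleton_add]
              abel)
          convert g3 using 1
          rw [Multiset.replicate_add]
          simp only [← Multiset.singleton_add]
          abel
    · rintro ⟨⟨W, r⟩, i⟩ ⟨⟨⟨⟨h1, h2, h3, h4, h5⟩, h6, h7⟩, h8, h9, h10⟩, h11⟩
        ⟨⟨W', r'⟩, i'⟩ ⟨⟨⟨⟨h1', h2', h3', h4', h5'⟩, h6', h7'⟩, h8', h9', h10'⟩, h11'⟩ heq
      simp only [Finset.coe_range, Set.mem_Iio, Prod.mk.injEq] at *
      obtain ⟨⟨e1, e2⟩, e3, e4, e5⟩ := heq
      have hsm := small_eq r h7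
      have hsm' := small_eq r' h7'
      have hss : r.filter (fun x => ¬ 5 ≤ x) = r'.filter (fun x => ¬ 5 ≤ x) := by
        rw [hsm, hsm', e3, e4, e5]
      have hz : ∀ s : Multiset ℕ, ((s.filter (fun x => 5 ≤ x)).map (fun x => x - 2)).count 2 = 0 := by
        intro s
        rw [Multiset.count_eq_zero]
        intro hm
        obtain ⟨y, hy, hy2⟩ := Multiset.mem_map.1 hm
        have := (Multiset.mem_filter.1 hy).2
        omega
      have hi : i = i' := by
        have := congrArg (Multiset.count 2) e2
        rw [Multiset.count_add, Multiset.count_add, hz, hz, Multiset.count_replicate_self,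
          Multiset.count_replicate_self] at this
        omega
      subst hi
      have e6 := Multiset.add_left_inj.1 e2
      have hinv : ∀ s : Multiset ℕ, ((s.filter (fun x => 5 ≤ x)).map (fun x => x - 2)).map
          (fun x => x + 2) = s.filter (fun x => 5 ≤ x) := by
        intro s
        rw [Multiset.map_map]
        conv_rhs => rw [← Multiset.map_id (s.filter (fun x => 5 ≤ x))]
        refine Multiset.map_congr rfl ?_
        intro x hx
        have := (Multiset.mem_filter.1 hx).2
        simp only [Function.comp_apply, id]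
        omega
      have hbb : r.filter (fun x => 5 ≤ x) = r'.filter (fun x => 5 ≤ x) := by
        rw [← hinv r, ← hinv r', e6]
      have hrr : r = r' := by
        rw [← Multiset.filter_add_not (fun x => 5 ≤ x) r,
          ← Multiset.filter_add_not (fun x => 5 ≤ x) r', hbb, hss]
      subst hrr
      have hWW : W = W' := by omega
      exact ⟨⟨hWW, rfl⟩, rfl⟩
    · exact (finite_NN N).prod ((Finset.finite_toSet _).prod
        ((Finset.finite_toSet _).prod (Finset.finite_toSet _)))
  simp only [Set.ncard_prod, Set.ncard_coe_finset, Finset.card_range] at h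
  exact h

/-- forcibly connected partitions without part one are rare -/
lemma A_le (T K N : ℕ)
    (hN : 3 * K + 12 * (5 * T) + 3 * K * (3 * K + 3 * (5 * T)) + 3 * (5 * T) < N) :
    (A N).ncard * (T * K) ≤ (3 * K + T * (5 * T * (5 * T * (5 * T)))) * (F1 N).ncard := by
  have hsub : A N ⊆ AB 2 T N ∪ (AB 3 T N ∪ (AB 4 T N ∪ AF (5 * T) N)) := by
    intro p hp
    by_cases h2 : (2 + 1) * T ≤ p.2.count 2
    · exact Or.inl ⟨hp, h2⟩
    · by_cases h3 : (3 + 1) * T ≤ p.2.count 3
      · exact Or.inr (Or.inl ⟨hp, h3⟩)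
      · by_cases h4 : (4 + 1) * T ≤ p.2.count 4
        · exact Or.inr (Or.inr (Or.inl ⟨hp, h4⟩))
        · exact Or.inr (Or.inr (Or.inr ⟨hp, by omega, by omega, by omega⟩))
  have hfin : (AB 2 T N ∪ (AB 3 T N ∪ (AB 4 T N ∪ AF (5 * T) N))).Finite := by
    refine (finite_A N).subset ?_
    rintro p (h | h | h | h) <;> exact h.1
  have h1 : (A N).ncard ≤
      (AB 2 T N).ncard + ((AB 3 T N).ncard + ((AB 4 T N).ncard + (AF (5 * T) N).ncard)) := by
    refine (Set.ncard_le_ncard hsub hfin).trans ?_
    refine (Set.ncard_union_le _ _).trans ?_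
    refine Nat.add_le_add_left ?_ _
    refine (Set.ncard_union_le _ _).trans ?_
    refine Nat.add_le_add_left ?_ _
    exact Set.ncard_union_le _ _
  have e2 := count_AB 2 T N (by norm_num)
  have e3 := count_AB 3 T N (by norm_num)
  have e4 := count_AB 4 T N (by norm_num)
  have e5 := count_AF (5 * T) K N hN
  have e6 := NN_le_F1 N
  set a := (A N).ncard
  set a2 := (AB 2 T N).ncard
  set a3 := (AB 3 T N).ncard
  set a4 := (AB 4 T N).ncard
  set a5 := (AF (5 * T) N).ncard
  set m := (NN N).ncard
  set f := (F1 N).ncard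
  calc a * (T * K) ≤ (a2 + (a3 + (a4 + a5))) * (T * K) := Nat.mul_le_mul_right _ h1
    _ = a2 * T * K + a3 * T * K + a4 * T * K + T * (a5 * K) := by ring
    _ ≤ m * K + m * K + m * K + T * (m * (5 * T * (5 * T * (5 * T)))) := by gcongr
    _ = (3 * K + T * (5 * T * (5 * T * (5 * T)))) * m := by ring
    _ ≤ _ := Nat.mul_le_mul_left _ e6

/-! ### From `FC` to forcible `k`-connectedness and back -/

lemma induce_empty {V : Type} (G : SimpleGraph V) (S : Finset V) (hS : S.card < 1) :
    (G.induce ((S : Set V)ᶜ)).Connected ↔ G.Connected := by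
  have h : S = ∅ := Finset.card_eq_zero.1 (by omega)
  have h2 : ((S : Set V)ᶜ) = Set.univ := by
    rw [h]; simp
  rw [h2]
  exact (SimpleGraph.induceUnivIso G).connected_iff

lemma card_of_map {V : Type} [Fintype V] (d : V → ℕ) (s : Multiset ℕ)
    (h : (Finset.univ : Finset V).val.map d = s) : Fintype.card V = Multiset.card s := by
  have := congrArg Multiset.card h
  simpa using this

lemma fk1_of_fc (W : ℕ) (r : Multiset ℕ) (hW : 0 < W) (h : FC (W ::ₘ r)) :
    ForciblyKConnected 1 (W ::ₘ r) := by
  refine ⟨h.1, ?_⟩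
  intro V _ G hG
  rw [realizes_iff] at hG
  have hc := card_of_map _ _ hG
  rw [Multiset.card_cons] at hc
  have h2 := graphical_le W r h.1
  refine ⟨by omega, ?_⟩
  intro S hS
  rw [induce_empty G S hS]
  have : Nonempty V := by
    rw [← Fintype.card_pos_iff]
    omega
  exact ⟨h.2 V G hG⟩

lemma fk2 (s : Multiset ℕ) (h : ForciblyKConnected 2 s) : FC s ∧ 1 ∉ s := by
  classical
  refine ⟨⟨h.1, ?_⟩, ?_⟩
  · intro V _ G hG
    have h2 := h.2 V G ((realizes_iff G s).2 hG)
    have h3 := h2.2 ∅ (by simp)
    rw [induce_empty G ∅ (by simp)] at h3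
    exact h3.preconnected
  · intro h1
    obtain ⟨t, rfl⟩ := Multiset.exists_cons_of_mem h1
    have hg := h.1
    rw [graphical_iff] at hg
    obtain ⟨V, i, G, hG⟩ := hg
    obtain ⟨v, hv, -, -⟩ := rep1 _ _ _ hG
    obtain ⟨hcard, hconn⟩ := h.2 V G ((realizes_iff G _).2 hG)
    obtain ⟨u, hu⟩ := Set.ncard_eq_one.1 (show (G.neighborSet v).ncard = 1 from hv)
    have hvu : G.Adj v u := by
      have : u ∈ G.neighborSet v := by rw [hu]; rfl
      exact this
    have hvu2 : v ≠ u := G.ne_of_adj hvu
    obtain ⟨z, hz⟩ : ∃ z, z ∉ ({u, v} : Finset V) := by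
      by_contra hcon
      push Not at hcon
      have h3 : (Finset.univ : Finset V) ⊆ {u, v} := fun x _ => hcon x
      have h4 := Finset.card_le_card h3
      rw [Finset.card_univ] at h4
      have h5 : ({u, v} : Finset V).card ≤ 2 := Finset.card_le_two
      omega
    rw [Finset.mem_insert, Finset.mem_singleton, not_or] at hz
    have hc := (hconn {u} (by simp)).preconnected
    have hv' : v ∈ (((({u} : Finset V)) : Set V)ᶜ) := by simpa using hvu2
    have hz' : z ∈ (((({u} : Finset V)) : Set V)ᶜ) := by simpa using hz.1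
    have hr := hc ⟨v, hv'⟩ ⟨z, hz'⟩
    rw [SimpleGraph.reachable_iff_reflTransGen] at hr
    rcases Relation.ReflTransGen.cases_head hr with heq | ⟨c, hc1, -⟩
    · exact hz.2 (congrArg Subtype.val heq).symm
    · have hadj : G.Adj v c.1 := hc1
      have : c.1 ∈ G.neighborSet v := hadj
      rw [hu] at this
      have h6 : c.1 = u := this
      exact c.2 (by simpa using h6)

lemma exists_hub (s : Multiset ℕ) (hs : s ≠ 0) : ∃ W r, W ::ₘ r = s ∧ ∀ x ∈ r, x ≤ W := by
  classical
  obtain ⟨W, hW, hmax⟩ := s.toFinset.exists_max_image id (by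
    rw [Finset.nonempty_iff_ne_empty]
    intro h
    exact hs (Multiset.toFinset_eq_empty.1 h))
  refine ⟨W, s.erase W, Multiset.cons_erase (Multiset.mem_toFinset.1 hW), ?_⟩
  intro x hx
  exact hmax x (Multiset.mem_toFinset.2 (Multiset.mem_of_mem_erase hx))

lemma F1_le_gf (N : ℕ) : (F1 N).ncard ≤ gf 1 N := by
  unfold gf
  rw [← Nat.card_coe_set_eq]
  let f : F1 N → {p : Nat.Partition N // ForciblyKConnected 1 p.parts} := fun q =>
    ⟨⟨q.1.1 ::ₘ q.1.2, by
        intro i hi
        rcases Multiset.mem_cons.1 hi with hi | hi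
        · rw [hi]; exact q.2.2.1
        · exact Nat.pos_of_ne_zero (fun h => q.2.2.2.1 (h ▸ hi)), by
        rw [Multiset.sum_cons]; exact q.2.1⟩, fk1_of_fc _ _ q.2.2.1 q.2.2.2.2.2⟩
  refine Nat.card_le_card_of_injective f ?_
  rintro ⟨⟨W, r⟩, h1, h2, h3, h4, h5⟩ ⟨⟨W', r'⟩, h1', h2', h3', h4', h5'⟩ heq
  have heq2 : W ::ₘ r = W' ::ₘ r' := congrArg (fun z => z.1.parts) heq
  have hWW : W = W' := by
    apply le_antisymm
    · have : W ∈ W' ::ₘ r' := by rw [← heq2]; exact Multiset.mem_cons_self _ _
      rcases Multiset.mem_cons.1 this with h | h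
      · exact h.le
      · exact h4' W h
    · have : W' ∈ W ::ₘ r := by rw [heq2]; exact Multiset.mem_cons_self _ _
      rcases Multiset.mem_cons.1 this with h | h
      · exact h.le
      · exact h4 W' h
  subst hWW
  have := (Multiset.cons_inj_right W).1 heq2
  subst this
  rfl

lemma gf2_le_A (N : ℕ) (hN : 0 < N) : gf 2 N ≤ (A N).ncard := by
  unfold gf
  rw [← Nat.card_coe_set_eq]
  have hex : ∀ p : {p : Nat.Partition N // ForciblyKConnected 2 p.parts},
      ∃ q : A N, q.1.1 ::ₘ q.1.2 = p.1.parts := by
    rintro ⟨p, hp⟩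
    have hne : p.parts ≠ 0 := by
      intro h
      have := p.parts_sum
      rw [h] at this
      simp at this
      omega
    obtain ⟨W, r, hWr, hmax⟩ := exists_hub p.parts hne
    obtain ⟨hfc, h1⟩ := fk2 _ hp
    have hpos : ∀ x ∈ W ::ₘ r, 2 ≤ x := by
      intro x hx
      rw [hWr] at hx
      have h2 := p.parts_pos hx
      have h3 : x ≠ 1 := fun h => h1 (h ▸ hx)
      omega
    refine ⟨⟨(W, r), ⟨?_, ?_, ?_, hmax, ?_⟩, ?_, ?_⟩, hWr⟩
    · have := p.parts_sum
      rw [← hWr, Multiset.sum_cons] at this
      exact this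
    · have := hpos W (Multiset.mem_cons_self _ _)
      simp only
      omega
    · intro h
      have := hpos 0 (Multiset.mem_cons_of_mem h)
      omega
    · simp only
      rw [hWr]
      exact hfc
    · exact hpos W (Multiset.mem_cons_self _ _)
    · intro x hx
      exact hpos x (Multiset.mem_cons_of_mem hx)
  choose f hf using hex
  have := finite_A N
  have : Finite (A N) := (finite_A N).to_subtype
  refine Nat.card_le_card_of_injective f ?_
  intro p q hpq
  have h1 := hf p
  rw [hpq, hf q] at h1
  apply Subtype.ext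
  apply Nat.Partition.ext
  exact h1.symm

lemma gf1_le_g (N : ℕ) : gf 1 N ≤ g N := by
  unfold gf g
  refine Nat.card_le_card_of_injective
    (fun p => (⟨p.1, p.2.1⟩ : {p : Nat.Partition N // Graphical p.parts})) ?_
  intro p q hpq
  simp only [Subtype.mk.injEq] at hpq
  exact Subtype.ext hpq

/-- the star -/
def starG (n : ℕ) : SimpleGraph (Option (Fin n)) where
  Adj x y := (x = none ∧ y ≠ none) ∨ (x ≠ none ∧ y = none)
  symm := ⟨by
    rintro x y (⟨h1, h2⟩ | ⟨h1, h2⟩)
    · exact Or.inr ⟨h2, h1⟩
    · exact Or.inl ⟨h2, h1⟩⟩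
  loopless := ⟨by
    rintro x (⟨h1, h2⟩ | ⟨h1, h2⟩)
    · exact h2 h1
    · exact h1 h2⟩

lemma star_graphical (n : ℕ) : Graphical (n ::ₘ Multiset.replicate n 1) := by
  rw [graphical_iff]
  refine ⟨Option (Fin n), inferInstance, starG n, ?_⟩
  rw [map_option]
  congr 1
  · unfold deg
    have : (starG n).neighborSet none = Set.range some := by
      ext z
      simp only [SimpleGraph.mem_neighborSet, starG, Set.mem_range]
      cases z <;> simp
    rw [this, ← Set.image_univ, Set.ncard_image_of_injective _ (Option.some_injective _)]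
    simp
  · have : (fun x : Fin n => deg (starG n) (some x)) = fun _ => 1 := by
      funext x
      unfold deg
      have : (starG n).neighborSet (some x) = {none} := by
        ext z
        simp [starG]
      rw [this, Set.ncard_singleton]
    rw [this, Multiset.map_const']
    simp

lemma star_fc (n : ℕ) : FC (n ::ₘ Multiset.replicate n 1) := by
  classical
  refine ⟨star_graphical n, ?_⟩
  intro V _ G hG
  obtain ⟨w, hw, -, -⟩ := rep1 _ _ _ hG
  have hc := card_of_map _ _ hG
  rw [Multiset.card_cons, Multiset.card_replicate] at hc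
  have hsub : G.neighborSet w ⊆ ({w}ᶜ : Set V) := by
    intro x hx hxw
    rw [Set.mem_singleton_iff] at hxw
    subst hxw
    exact G.loopless.irrefl _ hx
  have heq := Set.eq_of_subset_of_ncard_le hsub (by
    rw [Set.ncard_compl, Set.ncard_singleton, Nat.card_eq_fintype_card, hc]
    unfold deg at hw
    omega) (Set.toFinite _)
  have hadj : ∀ x, G.Reachable w x := by
    intro x
    by_cases hx : x = w
    · rw [hx]
    · have : x ∈ G.neighborSet w := by
        rw [heq]
        exact hx
      exact SimpleGraph.Adj.reachable this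
  intro a b
  exact (hadj a).symm.trans (hadj b)

lemma gf1_pos (n : ℕ) (hn : 1 ≤ n) : 0 < gf 1 (2 * n) := by
  unfold gf
  have : Nonempty {p : Nat.Partition (2 * n) // ForciblyKConnected 1 p.parts} := by
    refine ⟨⟨⟨n ::ₘ Multiset.replicate n 1, ?_, ?_⟩, fk1_of_fc n _ hn (star_fc n)⟩⟩
    · intro i hi
      rcases Multiset.mem_cons.1 hi with hi | hi
      · omega
      · rw [Multiset.eq_of_mem_replicate hi]
        exact Nat.one_pos
    · rw [Multiset.sum_cons, Multiset.sum_replicate]
      simp
      omega
  exact Nat.card_pos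

/-- **Theorem.** The number `gf 2 (2n)` of forcibly biconnected graphical partitions of `2n` is
negligible against the number `gf 1 (2n)` of forcibly connected ones (which is positive), and
hence against the number `g (2n)` of all graphical partitions of `2n`. -/
theorem result :
    (∀ n : ℕ, 1 ≤ n → 0 < gf 1 (2 * n)) ∧
    Tendsto (fun n : ℕ => (gf 2 (2 * n) : ℝ) / (gf 1 (2 * n) : ℝ)) atTop (𝓝 0) ∧
    Tendsto (fun n : ℕ => (gf 2 (2 * n) : ℝ) / (g (2 * n) : ℝ)) atTop (𝓝 0) := by
  have h1 : Tendsto (fun n : ℕ => (gf 2 (2 * n) : ℝ) / (gf 1 (2 * n) : ℝ)) atTop (𝓝 0) := by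
    rw [Metric.tendsto_atTop]
    intro ε hε
    obtain ⟨T, hT⟩ := exists_nat_gt (6 / ε)
    have hTpos : (0 : ℝ) < T := lt_trans (by positivity) hT
    obtain ⟨K, hK⟩ := exists_nat_gt (2 * (5 * (T : ℝ) * (5 * T * (5 * T))) / ε)
    have hKpos : (0 : ℝ) < K := lt_trans (by positivity) hK
    refine ⟨3 * K + 12 * (5 * T) + 3 * K * (3 * K + 3 * (5 * T)) + 3 * (5 * T) + 1, ?_⟩
    intro n hn
    have h2 := A_le T K (2 * n) (by omega)
    have h3 := gf2_le_A (2 * n) (by omega)
    have h4 := F1_le_gf (2 * n)
    have h5 := gf1_pos n (by omega)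
    have h6 : gf 2 (2 * n) * (T * K) ≤
        (3 * K + T * (5 * T * (5 * T * (5 * T)))) * gf 1 (2 * n) :=
      (Nat.mul_le_mul_right _ h3).trans (h2.trans (Nat.mul_le_mul_left _ h4))
    have h7 : (gf 2 (2 * n) : ℝ) * (T * K) ≤
        (3 * K + T * (5 * T * (5 * T * (5 * T)))) * (gf 1 (2 * n) : ℝ) := by
      exact_mod_cast h6
    have h8 : (0 : ℝ) < gf 1 (2 * n) := by exact_mod_cast h5
    rw [Real.dist_eq, sub_zero, abs_of_nonneg (by positivity), div_lt_iff₀ h8]
    have h9 : (3 : ℝ) * K + T * (5 * T * (5 * T * (5 * T))) < ε * (T * K) := by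
      rw [div_lt_iff₀ hε] at hT hK
      nlinarith
    have hTK : (0 : ℝ) < T * K := by positivity
    have h10 : (gf 2 (2 * n) : ℝ) * (T * K) < ε * (T * K) * (gf 1 (2 * n) : ℝ) :=
      lt_of_le_of_lt h7 (mul_lt_mul_of_pos_right h9 h8)
    have h11 : (gf 2 (2 * n) : ℝ) * (T * K) < (ε * (gf 1 (2 * n) : ℝ)) * (T * K) := by
      linarith
    exact lt_of_mul_lt_mul_right h11 hTK.le
  refine ⟨gf1_pos, h1, ?_⟩
  refine squeeze_zero' (Eventually.of_forall (fun n => by positivity)) ?_ h1
  filter_upwards [eventually_ge_atTop 1] with n hn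
  have h5 : (0 : ℝ) < gf 1 (2 * n) := by exact_mod_cast gf1_pos n hn
  have h6 : (gf 1 (2 * n) : ℝ) ≤ g (2 * n) := by exact_mod_cast gf1_le_g (2 * n)
  exact div_le_div_of_nonneg_left (by positivity) h5 h6

end Pool.Agent.Results.MP_1c575b_co.ForciblyBiconnected
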